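import Mathlib
import Pool.Agent.H55.SondowDefs
import Pool.Agent.H55.Sondow

namespace Pool.Agent.Results.MP_f2d551_nt.FermatReduction

open Pool.Agent.H55.SondowDefs

/-- Q1 holds for every `μ` unless `μ + 1` is a Fermat prime `F_m` with `m ≥ 5`, `3 ∤ m`. -/
theorem result : ∀ μ : ℤ, μ ∉ ({0, 1, -1, 2, -2, 4, 16} : Set ℤ) →
    (¬ ∃ m : ℕ, 5 ≤ m ∧ ¬ 3 ∣ m ∧ μ = 2 ^ 2 ^ m ∧ Nat.Prime (2 ^ 2 ^ m + 1)) →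
    ∃ n : ℕ, 2 ≤ n ∧ (n : ℤ) ≤ |μ| ∧ IsSondow μ n :=
  Pool.Agent.H55.Sondow.main

end Pool.Agent.Results.MP_f2d551_nt.FermatReduction
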